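import Pool.Agent.P8H6.DC.Stm

/-!
Part BLK of project DC: the numbers `δ_i b^i θ` vary modulo one at many places.
-/

set_option autoImplicit false

open Finset

namespace Pool.Agent.P8H55.DC

/-- distance of `μ y` from the integers, uniformly in `μ ≠ 0`, `|μ| ≤ B` -/
theorem dist_pos (y : ℝ) (hy : Irrational y) (B : ℕ) :
    ∃ κ : ℝ, 0 < κ ∧ ∀ μ : ℤ, μ ≠ 0 → |μ| ≤ (B : ℤ) → ∀ k : ℤ, κ ≤ |(μ : ℝ) * y - k| := by
  have hpos : ∀ μ : ℤ, μ ≠ 0 → 0 < |(μ : ℝ) * y - round ((μ : ℝ) * y)| := by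
    intro μ hμ
    rw [abs_pos, sub_ne_zero]
    exact (hy.intCast_mul hμ).ne_int _
  obtain ⟨μ₀, hμ₀, hmin⟩ := Finset.exists_min_image
    ((Finset.Icc (-(B : ℤ) - 1) (B + 1)).filter (fun μ => μ ≠ 0))
    (fun μ : ℤ => |(μ : ℝ) * y - round ((μ : ℝ) * y)|)
    ⟨1, by
      rw [Finset.mem_filter, Finset.mem_Icc]
      refine ⟨⟨?_, ?_⟩, one_ne_zero⟩ <;> omega⟩
  rw [Finset.mem_filter] at hμ₀
  refine ⟨_, hpos μ₀ hμ₀.2, fun μ hμ hB k => ?_⟩
  refine (hmin μ ?_).trans (round_le _ k)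
  rw [Finset.mem_filter, Finset.mem_Icc]
  rw [abs_le] at hB
  exact ⟨⟨by omega, by omega⟩, hμ⟩

theorem step (b : ℕ) (hb : 2 ≤ b) (θ : ℝ) (hθ : Irrational θ) (i₀ : ℕ) :
    ∃ M : ℕ, ∀ δ : ℕ → ℤ, (∀ j, δ j ≠ 0 ∧ |δ j| < (b : ℤ)) → ∃ i, i₀ ≤ i ∧ i ≤ i₀ + M ∧
      ∀ k : ℤ, 1 / (4 * (b : ℝ) ^ 5) ≤
        |(δ (i + 1) : ℝ) * (b : ℝ) ^ (i + 1) * θ - (δ i : ℝ) * (b : ℝ) ^ i * θ - k| := by
  have hb0 : (0 : ℝ) < b := by
    have : 0 < b := by omega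
    exact_mod_cast this
  have hb2 : (2 : ℝ) ≤ b := by exact_mod_cast hb
  obtain ⟨c, hc⟩ : ∃ c : ℝ, c = 1 / (4 * (b : ℝ) ^ 5) := ⟨_, rfl⟩
  have hc0 : 0 < c := by
    rw [hc]
    positivity
  have hy : Irrational ((b : ℝ) ^ i₀ * θ) := by
    have h1 : ((b ^ i₀ : ℕ) : ℝ) = (b : ℝ) ^ i₀ := by push_cast; rfl
    rw [← h1]
    exact hθ.natCast_mul (pow_ne_zero _ (by omega))
  obtain ⟨κ, hκ, hdist⟩ := dist_pos _ hy (b ^ 2)
  -- choice of `M`
  obtain ⟨M, hM⟩ : ∃ M : ℕ, c * (b : ℝ) ^ 2 / κ < (b : ℝ) ^ M :=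
    pow_unbounded_of_one_lt _ (by linarith)
  refine ⟨M, fun δ hδ => ?_⟩
  by_contra hcon
  push Not at hcon
  rw [← hc] at hcon
  -- the integers `μ`
  obtain ⟨μ, hμ⟩ : ∃ μ : ℕ → ℤ, μ = fun i => (b : ℤ) * δ (i + 1) - δ i := ⟨_, rfl⟩
  have hμ0 : ∀ i, μ i ≠ 0 := by
    intro i h0
    rw [hμ] at h0
    have h1 : (b : ℤ) * δ (i + 1) = δ i := by
      have : (b : ℤ) * δ (i + 1) - δ i = 0 := h0
      linarith
    have h2 : |(b : ℤ) * δ (i + 1)| < b := by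
      rw [h1]
      exact (hδ i).2
    rw [abs_mul, Nat.abs_cast] at h2
    have h3 : 1 ≤ |δ (i + 1)| := Int.one_le_abs (hδ (i + 1)).1
    have h4 : (0 : ℤ) ≤ b := Int.natCast_nonneg b
    nlinarith
  have hμb : ∀ i, |μ i| ≤ ((b ^ 2 : ℕ) : ℤ) := by
    intro i
    rw [hμ]
    show |(b : ℤ) * δ (i + 1) - δ i| ≤ _
    have h1 := abs_sub (((b : ℤ) * δ (i + 1))) (δ i)
    rw [abs_mul, Nat.abs_cast] at h1
    have h2 := (hδ (i + 1)).2
    have h3 := (hδ i).2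
    have h4 : (0 : ℤ) ≤ b := Int.natCast_nonneg b
    push_cast
    nlinarith
  have hexp : ∀ i, (δ (i + 1) : ℝ) * (b : ℝ) ^ (i + 1) * θ - (δ i : ℝ) * (b : ℝ) ^ i * θ =
      (μ i : ℝ) * ((b : ℝ) ^ i * θ) := by
    intro i
    rw [hμ]
    push_cast
    ring
  -- the integers `k`
  have hk : ∀ i, ∃ k : ℤ, i₀ ≤ i → i ≤ i₀ + M → |(μ i : ℝ) * ((b : ℝ) ^ i * θ) - k| < c := by
    intro i
    by_cases h : i₀ ≤ i ∧ i ≤ i₀ + M
    · obtain ⟨k, hk⟩ := hcon i h.1 h.2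
      refine ⟨k, fun _ _ => ?_⟩
      rw [← hexp]
      exact hk
    · exact ⟨0, fun h1 h2 => absurd ⟨h1, h2⟩ h⟩
  choose k hk using hk
  obtain ⟨e, he⟩ : ∃ e : ℕ → ℝ, e = fun i => (μ i : ℝ) * ((b : ℝ) ^ i * θ) - k i := ⟨_, rfl⟩
  have hec : ∀ i, i₀ ≤ i → i ≤ i₀ + M → |e i| < c := by
    intro i h1 h2
    rw [he]
    exact hk i h1 h2
  have hμr : ∀ i, |(μ i : ℝ)| ≤ (b : ℝ) ^ 2 := by
    intro i
    have := hμb i
    have h2 : ((|μ i| : ℤ) : ℝ) ≤ (((b ^ 2 : ℕ) : ℤ) : ℝ) := by exact_mod_cast this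
    rw [Int.cast_abs] at h2
    push_cast at h2
    exact h2
  have hμ1 : ∀ i, 1 ≤ |(μ i : ℝ)| := by
    intro i
    have h2 : ((1 : ℤ) : ℝ) ≤ ((|μ i| : ℤ) : ℝ) := by exact_mod_cast Int.one_le_abs (hμ0 i)
    rw [Int.cast_abs] at h2
    push_cast at h2
    exact h2
  have hrec : ∀ i, i₀ ≤ i → i + 1 ≤ i₀ + M → b * e i * μ (i + 1) = e (i + 1) * μ i := by
    intro i h1 h2
    have hN : (((b : ℤ) * k i * μ (i + 1) - k (i + 1) * μ i : ℤ) : ℝ) =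
        -(b * e i * μ (i + 1)) + e (i + 1) * μ i := by
      rw [he]
      push_cast
      ring
    have hlt : |(((b : ℤ) * k i * μ (i + 1) - k (i + 1) * μ i : ℤ) : ℝ)| < 1 := by
      rw [hN]
      have a1 : |-(b * e i * μ (i + 1))| ≤ b * c * b ^ 2 := by
        rw [abs_neg, abs_mul, abs_mul, Nat.abs_cast]
        exact mul_le_mul (mul_le_mul_of_nonneg_left (hec i h1 (by omega)).le hb0.le) (hμr _)
          (abs_nonneg _) (by positivity)
      have a2 : |e (i + 1) * μ i| ≤ c * b ^ 2 := by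
        rw [abs_mul]
        exact mul_le_mul (hec (i + 1) (by omega) h2).le (hμr _) (abs_nonneg _) hc0.le
      have a3 := abs_add_le (-(b * e i * μ (i + 1))) (e (i + 1) * μ i)
      have a4 : b * c * b ^ 2 + c * b ^ 2 < 1 := by
        rw [hc]
        have h5 : (b : ℝ) * (1 / (4 * (b : ℝ) ^ 5)) * b ^ 2 + 1 / (4 * (b : ℝ) ^ 5) * b ^ 2 =
            (b + 1) / (4 * b ^ 3) := by
          field_simp
        rw [h5, div_lt_one (by positivity)]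
        nlinarith [pow_pos hb0 2, pow_pos hb0 3]
      linarith
    have hz : (b : ℤ) * k i * μ (i + 1) - k (i + 1) * μ i = 0 := by
      have : |(b : ℤ) * k i * μ (i + 1) - k (i + 1) * μ i| < 1 := by exact_mod_cast hlt
      exact Int.abs_lt_one_iff.1 this
    rw [hz] at hN
    push_cast at hN
    linarith
  have hgeo : ∀ j, j ≤ M → e (i₀ + j) / μ (i₀ + j) = (b : ℝ) ^ j * (e i₀ / μ i₀) := by
    intro j
    induction j with
    | zero =>
      intro _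
      simp
    | succ j ih =>
      intro hj
      have h1 := ih (by omega)
      have h2 := hrec (i₀ + j) (by omega) (by omega)
      have h3 : (μ (i₀ + j) : ℝ) ≠ 0 := by exact_mod_cast hμ0 _
      have h4 : (μ (i₀ + j + 1) : ℝ) ≠ 0 := by exact_mod_cast hμ0 _
      have h5 : e (i₀ + j + 1) / μ (i₀ + j + 1) = b * (e (i₀ + j) / μ (i₀ + j)) := by
        rw [div_eq_iff h4, mul_div_assoc', div_mul_eq_mul_div, eq_div_iff h3]
        linarith
      rw [← add_assoc, h5, h1, pow_succ]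
      ring
  have h1 := hgeo M le_rfl
  have h2 : |e (i₀ + M) / μ (i₀ + M)| < c := by
    rw [abs_div, div_lt_iff₀ (by linarith [hμ1 (i₀ + M)])]
    have := hec (i₀ + M) (by omega) le_rfl
    nlinarith [hμ1 (i₀ + M)]
  have h3 : κ / b ^ 2 ≤ |e i₀ / μ i₀| := by
    rw [abs_div]
    have h4 : κ ≤ |e i₀| := by
      rw [he]
      exact hdist (μ i₀) (hμ0 i₀) (hμb i₀) (k i₀)
    exact div_le_div₀ (abs_nonneg _) h4 (by linarith [hμ1 i₀]) (hμr i₀)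
  rw [h1, abs_mul, abs_of_pos (pow_pos hb0 M)] at h2
  have h4 : (b : ℝ) ^ M * (κ / b ^ 2) < c := lt_of_le_of_lt
    (mul_le_mul_of_nonneg_left h3 (pow_pos hb0 M).le) h2
  rw [div_lt_iff₀ hκ] at hM
  rw [← mul_div_assoc, div_lt_iff₀ (by positivity)] at h4
  linarith

/-- **Part BLK** -/
theorem t_BLK : Pool.Agent.P8H6.DC.S_BLK := by
  intro b hb θ hθ
  have key : ∀ m i₀ : ℕ, ∃ L₀ : ℕ, ∀ δ : ℕ → ℤ, (∀ j, δ j ≠ 0 ∧ |δ j| < (b : ℤ)) →
      ∃ J : Finset ℕ, J.card = m ∧ (∀ i ∈ J, i₀ ≤ i ∧ i + 1 < L₀) ∧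
        (∀ i ∈ J, ∀ i' ∈ J, i < i' → i + 1 < i') ∧
        ∀ i ∈ J, ∀ k : ℤ, 1 / (4 * (b : ℝ) ^ 5) ≤
          |(δ (i + 1) : ℝ) * (b : ℝ) ^ (i + 1) * θ - (δ i : ℝ) * (b : ℝ) ^ i * θ - k| := by
    intro m
    induction m with
    | zero =>
      intro i₀
      exact ⟨0, fun δ _ => ⟨∅, rfl, by simp, by simp, by simp⟩⟩
    | succ m ih =>
      intro i₀
      obtain ⟨M, hM⟩ := step b hb θ hθ i₀
      obtain ⟨L, hL⟩ := ih (i₀ + M + 2)
      refine ⟨max L (i₀ + M + 2), fun δ hδ => ?_⟩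
      obtain ⟨i, h1, h2, h3⟩ := hM δ hδ
      obtain ⟨J, g1, g2, g3, g4⟩ := hL δ hδ
      have hni : i ∉ J := fun hi => by
        have := (g2 i hi).1
        omega
      refine ⟨insert i J, by rw [Finset.card_insert_of_notMem hni, g1], ?_, ?_, ?_⟩
      · intro j hj
        rw [Finset.mem_insert] at hj
        rcases hj with rfl | hj
        · exact ⟨h1, lt_of_lt_of_le (by omega) (le_max_right _ _)⟩
        · have := g2 j hj
          exact ⟨by omega, lt_of_lt_of_le this.2 (le_max_left _ _)⟩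
      · intro j hj j' hj' hlt
        rw [Finset.mem_insert] at hj hj'
        rcases hj with rfl | hj
        · rcases hj' with rfl | hj'
          · omega
          · have := (g2 j' hj').1
            omega
        · rcases hj' with rfl | hj'
          · have := (g2 j hj).1
            omega
          · exact g3 j hj j' hj' hlt
      · intro j hj
        rw [Finset.mem_insert] at hj
        rcases hj with rfl | hj
        · exact h3
        · exact g4 j hj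
  intro m
  obtain ⟨L, hL⟩ := key m 0
  refine ⟨L, fun δ hδ => ?_⟩
  obtain ⟨J, g1, g2, g3, g4⟩ := hL δ hδ
  exact ⟨J, g1, fun i hi => (g2 i hi).2, g3, g4⟩

end Pool.Agent.P8H55.DC
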